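import Pool.Agent.Y160.HI.CritSha

/-!
# The Tate-Shafarevich group and the rank of the Jacobian of `w ^ q = f(x, t)` over `k(t)` in terms of
# the branch curve `f = 0`

Let `p` be a prime, `q = p ^ m > 1`, and `k` a field which contains a primitive `q`-th root of unity
(for the finiteness conjecture: a finite field). Let `f` be a polynomial in `x` and `t` over `k` which
is monic of degree prime to `p` in `x`, separable and irreducible over `K = k(t)`, such that the
affine curve `C : f(x, t) = 0` is smooth. Let `N = K[x] / (f) = K(θ)` be the function field of `C`, and
`J` the Jacobian over `K` of the curve `w ^ q = f(x, t)`; its dimension is `(q - 1) (deg_x f - 1) / 2`.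

Theorem. Let `P_i`, `i < n`, be closed points `b_i = 0`, `w = c_i` of the curve `w ^ q = f` over `K`,
where `b_i` is an irreducible monic divisor of `f - c_i ^ q` in `K[x]`. Suppose that every function `z`
on `C` whose divisor is divisible by `q` is a constant of `k` times a `q`-th power times a product of
the functions `b_i(θ)`. Then
1. the `p`-primary part of the Tate-Shafarevich group of `J` over `K` is zero (even the group defined
by the maximal ideals of `k[t]` only);
2. `n (q - 1)` elements of `J(K)` generate `J(K)` modulo `p ^ N` for every `N`. So the rank of `J(K)`
is at most `n (q - 1)`, if `J(K)` is finitely generated, for example if `k` is finite.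

If `k` is finite, it follows by the theorem of Tate, Milne and Kato-Trihan that the whole
Tate-Shafarevich group of `J` is finite, and that the order of the `L`-function at `s = 1` is equal to
the rank of `J(K)`. The hypothesis is a finite computation: the functions `z` modulo `q`-th powers
form an extension of `Pic(C)[q]` by the group `R* / R* ^ q`, where `R` is the coordinate ring of `C`.
For example, the hypothesis holds with `n = 0` if `Pic(C)` has no element of order `p` and
the units of `R` are the constants; then the rank of `J(K)` is zero.

Method: the descent with `1 - σ`, where `σ` is the automorphism `w ↦ ζ w` of the curve. `J(K)` and the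
Tate-Shafarevich group have no obstruction: a class of `H ^ 1 (K, J)` killed by `1 - σ` which is
locally trivial at the maximal ideals of `k[t]` comes from a function `z` in `N`, unique up to the
functions which come from points; since `C` is smooth the divisor of `z` is divisible by `q`; and
the constants do not matter because the norm of `z` is a `q`-th power.
-/

set_option autoImplicit false

namespace Pool.Agent.Results.MP_72e2e6_nt.BranchCurveCriterion

open Polynomial Pool.Agent.Y160.SL

theorem result {p m : ℕ} (hp : p.Prime) (hm : 0 < m) {k K : Type} [Field k] [Field K]
    [Algebra k[X] K] [IsFractionRing k[X] K] {ζ : k} (hζ : IsPrimitiveRoot ζ (p ^ m))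
    {f : k[X][X]} (hf : IsBranchCurve p f K) {n : ℕ} (b c : Fin n → K[X])
    (hbc : ∀ i, IsPoint (p ^ m) (f.map (algebraMap k[X] K)) (b i) (c i))
    (hfun : Filled k (p ^ m) (f.map (algebraMap k[X] K)) b) :
    ShaTriv p (p ^ m) k[X] (f.map (algebraMap k[X] K)) ∧
      ∃ D : Fin n × Fin (p ^ m - 1) → Jac (p ^ m) (f.map (algebraMap k[X] K)) K,
        GeneratesAt p D :=
  Pool.Agent.Y160.HI.critSha hp hm hζ hf b c hbc hfun

end Pool.Agent.Results.MP_72e2e6_nt.BranchCurveCriterion
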