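import Pool.Agent.Y194.UF.Ell
import Pool.Agent.W343.BSD.Stmt

/-!
# Abelian extensions of prime power degree of function fields: a uniform proportion of the characters
# for which the L-function does not vanish to a higher order

Let `K` be the function field of a curve over the finite field `k` with `q` elements, and let
`L(T) = ∏_v P_v(T^{deg v})⁻¹` be an Euler product over all places `v` of `K` with `P_v ∈ ℤ[T]`,
`P_v(0) = 1`, for instance the L-function of an abelian variety `A` over `K`. Let `Q` be an integer (`Q = q`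
for abelian varieties) and `L(T) = (1 - Q T)^ρ U(T)` with `U ∈ ℤ[T]`, `U(1/Q) ≠ 0`. Let `ℓ` be **any**
prime not dividing `Q`, let `F/K` be **any** finite abelian extension with an `ℓ`-group `G` as Galois group: any exponent, any
number of generators, ramified at places of **any** finite set `S` with `N_v = Q_v^{deg P_v} P_v(1/Q_v) ≠ 0`
for `v ∈ S`, `Q_v = Q^{deg v}`. For the characters `χ` of `G` let `L(χ, T)` be the product of the
`P_v(χ(Frob_v) T^{deg v})⁻¹` over `v ∉ S`; these are polynomials by Grothendieck's theorem (in the case of an abelian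
variety without constant part over the algebraic closure, for instance). Then

  `#{χ : ord_{T = 1/Q} L(χ, T) ≤ ρ} ≥ #G / ℓ^w`,   `w = v_ℓ(Q^{deg U} U(1/Q) ∏_{v ∈ S} N_v)`.

For an abelian variety `A` and `v ∈ S` a place of good reduction, `N_v` is `#A(k_v)` up to a power of `q`, and the
omitted Euler factors do not vanish at `T = 1/q`. So if `ρ = 0` then `L(A, χ, s)` does not vanish at `s = 1` for a
proportion at least `ℓ^{-w}` of the characters `χ` of `Gal(F/K)`: by Tate, Milne, Kato and Trihan
this means that a part of dimension at least `ℓ^{-w} [F : K] dim A` of the restriction of scalars of `A` from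
`F` to `K` (which is isogenous to the product of its parts belonging to the irreducible rational representations of
`G`) has a finite Tate-Shafarevich group and a finite Mordell-Weil group. The number `w` depends only on
`A`, on `ℓ` and on the numbers of points of the reductions of `A` at the ramified places, not on the degree, the
exponent or the number of generators of `F/K`; if these numbers of points are prime to `ℓ`, `w` depends on `A` and
`ℓ` only.

The second part of the theorem is the case of the elliptic curves `y² = x³ + a x + b` in characteristic at least `5`,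
where `S` is an arbitrary finite set of places (also of bad reduction) and `N_v` is the number of points of the smooth
part of the reduction at `v` of a minimal model.

Proof. The product of the `P_v([Frob_v] T^{deg v})⁻¹` over `v ∉ S` is a power series over `ℤ[G]`; all its images
under the characters of `G` are polynomials, so that its Taylor coefficient of index `ρ` at `1/Q`, times a
power of `Q`, is an element `x` of `ℤ[G]`. Its augmentation is `U(1/Q) ∏_{v ∈ S} P_v(1/Q_v)`, up to powers
of `Q` and the sign, and `χ(x) = 0` if `L(χ, T)` vanishes at `1/Q` to an order greater than `ρ`. By the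
`ℓ`-adic uncertainty principle (`Pool.Agent.Y194.UP`) an element of `ℤ[G]` whose augmentation `c` is not `0`
vanishes at no more than `(1 - ℓ^{-v_ℓ(c)}) #G` characters.
-/

set_option autoImplicit false

open Polynomial Pool.Agent.W343.BSD

namespace Pool.Agent.Results.MP_72e2e6_nt.CharacterProportion

/-- `Q ^ (deg P) P(1 / Q)` -/
def value (P : ℤ[X]) (Q : ℕ) : ℤ :=
  ∑ n ∈ Finset.range (P.natDegree + 1), P.coeff n * (Q : ℤ) ^ (P.natDegree - n)

/-- `P(z T ^ n)` -/
noncomputable def subst {R : Type*} [CommRing R] (P : ℤ[X]) (z : R) (n : ℕ) : R[X] :=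
  (P.map (Int.castRingHom R)).comp (C z * X ^ n)

section

variable {k K : Type} [Field k] [Field K] [Algebra k K]

/-- `L(T)`, the product of the `P_v(T ^ deg v)⁻¹` over all places `v` of `K` -/
noncomputable def Lseries (P : FF.Place k K → ℤ[X]) : PowerSeries ℤ :=
  eulerProd (fun v => S.deg v) fun v =>
    PowerSeries.invOfUnit (subst (P v) (1 : ℤ) (S.deg v) : PowerSeries ℤ) 1

open Classical in
/-- `L(χ, T)`, the product of the `P_v(χ(fr v) T ^ deg v)⁻¹` over all places `v` of `K` which are not in the
given finite set (`S` in the text above); here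
`fr v ∈ G` is the Frobenius element of `v` in an abelian extension of `K` with Galois group `G` (in the theorem
it is an arbitrary element of `G`) and `χ` is a character of `G`. -/
noncomputable def Ltwist {G : Type} [CommGroup G] (P : FF.Place k K → ℤ[X])
    (T : Finset (FF.Place k K)) (fr : FF.Place k K → G) (χ : G →* ℂ) : PowerSeries ℂ :=
  eulerProd (fun v => S.deg v) fun v => if v ∈ T then 1 else
    PowerSeries.invOfUnit (subst (P v) (χ (fr v)) (S.deg v) : PowerSeries ℂ) 1

/-- The number of the characters `χ` of `G` for which the order of vanishing of the polynomial `L χ` at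
`T = 1 / Q` is at most `ρ`. -/
noncomputable def number {G : Type} [CommGroup G] (L : (G →* ℂ) → ℂ[X]) (Q ρ : ℕ) : ℕ :=
  Nat.card {χ : G →* ℂ // (L χ).rootMultiplicity ((Q : ℂ)⁻¹) ≤ ρ}

/-- For all primes `ℓ ∤ Q`, all finite sets `S` of places with `N_v ≠ 0` for `v ∈ S`, all finite abelian
`ℓ`-groups `G` and all families `fr` of elements of `G`: if all the `L(χ, T)` are polynomials, then
`#G ≤ ℓ ^ w #{χ : ord_{T = 1 / Q} L(χ, T) ≤ ρ}`, where `w = v_ℓ(c ∏_{v ∈ S} N_v)`. -/
def Proportion (P : FF.Place k K → ℤ[X]) (Q ρ : ℕ) (c : ℤ) (N : FF.Place k K → ℤ) : Prop :=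
  ∀ l : ℕ, l.Prime → ¬ l ∣ Q → ∀ T : Finset (FF.Place k K), (∀ v ∈ T, N v ≠ 0) →
    ∀ (G : Type) [CommGroup G] [Finite G], IsPGroup l G → ∀ fr : FF.Place k K → G,
      ∀ L : (G →* ℂ) → ℂ[X], (∀ χ, (L χ : PowerSeries ℂ) = Ltwist P T fr χ) →
        Nat.card G ≤ l ^ padicValInt l (c * ∏ v ∈ T, N v) * number L Q ρ

open Classical in
/-- The Euler factor of `y ^ 2 = x ^ 3 + a x + b` at `v`: `1 - a_v X + q_v X ^ 2` for good reduction,
`1 - a_v X` for bad reduction. -/
noncomputable def factor (a b : K) (v : FF.Place k K) : ℤ[X] :=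
  1 - C (S.trace v a b) * X +
    if v.ord (minDisc v a b) = 0 then C (Nat.card (S.Res v) : ℤ) * X ^ 2 else 0

open Classical in
/-- The number of the points of the smooth part of the reduction at `v` of a minimal model of
`y ^ 2 = x ^ 3 + a x + b`: `q_v + 1 - a_v` for good reduction, `q_v - a_v` for bad reduction. -/
noncomputable def points (a b : K) (v : FF.Place k K) : ℤ :=
  (Nat.card (S.Res v) : ℤ) - S.trace v a b + if v.ord (minDisc v a b) = 0 then 1 else 0

end

/-- `F(T) = (1 - Q T) ^ ρ U(T)` and `U(1 / Q) ≠ 0` -/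
def HasForm (F : PowerSeries ℤ) (Q ρ : ℕ) (U : ℤ[X]) : Prop :=
  F = (((1 - C (Q : ℤ) * X) ^ ρ * U : ℤ[X]) : PowerSeries ℤ) ∧ value U Q ≠ 0

/-- The theorem for general Euler products. -/
def General (k K : Type) [Field k] [Field K] [Algebra k K] : Prop :=
  ∀ P : FF.Place k K → ℤ[X], (∀ v, (P v).coeff 0 = 1) → ∀ (Q ρ : ℕ) (U : ℤ[X]),
    HasForm (Lseries P) Q ρ U →
      Proportion P Q ρ (value U Q) (fun v => value (P v) (Q ^ S.deg v))

/-- The theorem for the elliptic curves `y ^ 2 = x ^ 3 + a x + b`. -/
def Elliptic (k K : Type) [Field k] [Field K] [Algebra k K] : Prop :=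
  ∀ a b : K, 4 * a ^ 3 + 27 * b ^ 2 ≠ 0 → ∀ (ρ : ℕ) (U : ℤ[X]),
    HasForm (S.Lfun k a b) (Nat.card k) ρ U →
      (∀ v : FF.Place k K, points a b v ≠ 0) ∧ S.Lfun k a b = Lseries (k := k) (factor a b) ∧
      Proportion (k := k) (factor a b) (Nat.card k) ρ (value U (Nat.card k)) (points a b)

/-- **Theorem.** (1) Let `K` be the function field of a curve over the finite field `k`, and let `P_v ∈ ℤ[X]`
be a polynomial with `P_v(0) = 1`, for every place `v` of `K`. If
`L(T) = ∏_v P_v(T ^ deg v)⁻¹ = (1 - Q T) ^ ρ U(T)`, `U ∈ ℤ[T]`, `U(1 / Q) ≠ 0`, then for all primes `ℓ ∤ Q`,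
all finite sets `S` of places with `N_v = Q_v ^ (deg P_v) P_v(1 / Q_v) ≠ 0` for `v ∈ S`, `Q_v = Q ^ deg v`,
all finite abelian `ℓ`-groups `G` and all families `fr` of elements of `G` for which all the
`L(χ, T) = ∏_{v ∉ S} P_v(χ(fr v) T ^ deg v)⁻¹` are polynomials, there are at least `#G / ℓ ^ w` characters `χ` of
`G` such that the order of vanishing of `L(χ, T)` at `T = 1 / Q` is at most `ρ`; here
`w = v_ℓ(Q ^ (deg U) U(1 / Q) ∏_{v ∈ S} N_v)`.

(2) Let `q = #k` be prime to `6` and let `E : y ^ 2 = x ^ 3 + a x + b` be an elliptic curve over `K` with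
`L(T, E/K) = (1 - q T) ^ ρ U(T)`, `U ∈ ℤ[T]`, `U(1 / q) ≠ 0`. Then this holds for the Euler factors
of `E` and `Q = q`, for all finite sets `S` of places, where `N_v` is the number of points of the smooth part of the
reduction of `E` at `v`, which is not `0`. -/
theorem result (k K : Type) [Field k] [Finite k] [Field K] [Algebra k K]
    (hK : IsCurveField k K) : General k K ∧ ((6 : k) ≠ 0 → Elliptic k K) := by
  have hFF : FF.IsFF k K := ⟨hK.essFiniteType, hK.trdeg_eq_one⟩
  have hfin : ∀ n : ℕ, {v : FF.Place k K | S.deg v ≤ n}.Finite := fun n => by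
    simp only [S.deg_eq]
    exact places_fin n
  have hd : ∀ v : FF.Place k K, 0 < S.deg v := fun v => by
    rw [S.deg_eq]
    exact deg_pos' v
  constructor
  · intro P hP Q ρ U ⟨hL, hU⟩ l hl hlQ T hT G _ _ hG fr L hLχ
    exact Pool.Agent.Y194.UF.main hfin hd hP hl hG hlQ hL hU T hT fr L hLχ
  · intro h6 a b hE ρ U ⟨hL, hU⟩
    have hab := ab_of_disc hE
    have hpts : ∀ v : FF.Place k K, points a b v = Pool.Agent.Y194.UF.pts a b v := by
      classical
      intro v
      unfold points Pool.Agent.Y194.UF.pts
      congr 1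
      by_cases h : v.ord (minDisc v a b) = 0
      · rw [if_pos h, if_pos ((S.ord_disc_iff v hE).1 h)]
      · rw [if_neg h, if_neg (fun h2 => h ((S.ord_disc_iff v hE).2 h2))]
    have hfac : ∀ v : FF.Place k K, factor a b v = Pool.Agent.Y194.UF.ellP a b v := by
      classical
      intro v
      unfold factor Pool.Agent.Y194.UF.ellP
      congr 1
      by_cases h : v.ord (minDisc v a b) = 0
      · rw [if_pos h, if_pos ((S.ord_disc_iff v hE).1 h)]
        rfl
      · rw [if_neg h, if_neg (fun h2 => h ((S.ord_disc_iff v hE).2 h2))]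
    have hLs : S.Lfun k a b = Lseries (k := k) (factor a b) := by
      rw [S.lfun_eq hE, Pool.Agent.Y194.UF.lfun_eq]
      unfold Lseries Pool.Agent.Y194.UF.Lser
      simp only [S.deg_eq, hfac]
      rfl
    refine ⟨fun v => by rw [hpts]; exact (Pool.Agent.Y194.UF.pts_pos h6 hab v).ne', hLs, ?_⟩
    intro l hl hlQ T hT G _ _ hG fr L hLχ
    have hv := fun v => Pool.Agent.Y194.UF.val_nv (k := k) h6 hab v hl hlQ
    have hv' : ∀ v : FF.Place k K,
        Pool.Agent.Y194.UF.nv (factor a b v) (Nat.card k ^ S.deg v) ≠ 0 ∧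
        padicValInt l (Pool.Agent.Y194.UF.nv (factor a b v) (Nat.card k ^ S.deg v)) =
          padicValInt l (points a b v) := by
      intro v
      rw [hfac, hpts, S.deg_eq]
      exact hv v
    have hP0 : ∀ v : FF.Place k K, (factor a b v).coeff 0 = 1 := by
      intro v
      rw [hfac]
      exact Pool.Agent.Y194.UF.ellP_zero a b v
    have h1 := Pool.Agent.Y194.UF.main hfin hd hP0 hl hG hlQ (hLs.symm.trans hL) hU T
      (fun v _ => (hv' v).1) fr L hLχ
    have h2 := Pool.Agent.Y194.UF.val_prod T
      (fun v => Pool.Agent.Y194.UF.nv (factor a b v) (Nat.card k ^ S.deg v))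
      (points a b) hl (fun v _ => (hv' v).1) hT (fun v _ => (hv' v).2)
      (Pool.Agent.Y194.UF.nv U (Nat.card k)) hU
    rw [h2] at h1
    exact h1

end Pool.Agent.Results.MP_72e2e6_nt.CharacterProportion
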