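import Pool.Agent.Y711.Uni

/-!
# Abelian varieties of unbounded dimension over `k(t)` and all extensions of degree a power of three

Let `k` be a finite field of characteristic at least five and let `m` be a monic squarefree polynomial
in `k[t]`. For at least half of the monic squarefree multiples `D` of `m` of degree `2 g + 1`, `g` large,
the following holds for ALL `c`, `α`, `β` in `k[t]` with `c β (4 α ^ 3 - 27 c β)` dividing a power of
`m`, for ALL `e ≥ 0` and for ALL Galois extensions `L` of `k(t)` of degree a power of three in which no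
ramified place splits in `L(√D)`: the `L`-function over `L` of the Jacobian of the curve
`y ^ 2 = D (c x ^ (3 N) + (α x ^ N + β) ^ 2)`, `N = 3 ^ e`, does not vanish at `s = 1`.
-/

set_option autoImplicit false

open Polynomial Pool.Agent.Y711

namespace Pool.Agent.Results.MP_72e2e6_nt.TorsionTowers

theorem result (k : Type) [Field k] [Finite k] (h2 : (2 : k) ≠ 0) (h3 : (3 : k) ≠ 0)
    (m : k[X]) (hm : m.Monic) (hs : Squarefree m) (δ : ℝ) (hδ : δ < 1 / 2) :
    ∃ N : ℕ, ∀ g ≥ N, δ * (twists g m).ncard ≤
      {D : k[X] | D ∈ twists g m ∧ ∀ (c α β : k[X]) (e : ℕ),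
        (∃ r : ℕ, c * β * (4 * α ^ 3 - 27 * (c * β)) ∣ m ^ r) →
          ∀ (L : Type) [Field L] [Algebra k[X] L] [Algebra (RatFunc k) L]
            [IsScalarTower k[X] (RatFunc k) L], IsThreeExtension D L →
              ¬ VanishesAtOne (torsionCurve c α β e) D (integralClosure k[X] L)}.ncard :=
  towers_bound h2 h3 hm hs hδ

end Pool.Agent.Results.MP_72e2e6_nt.TorsionTowers
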