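import Pool.Agent.Y711.CS3

/-!
# Quadratic twists of the Jacobians of the cyclic covers of the line of degree a power of three

Let `k` be a finite field of characteristic at least five, let `m n` be a monic squarefree polynomial
in `k[t]`, and fix a class of polynomials with prescribed quadratic symbols at the primes dividing
`n`. For at least half of the monic squarefree `D` of degree `2 g + 1` in the class which are divisible
by `m`, `g` large, the following holds for ALL powers `N` of three, for ALL cyclic covers
`y ^ N = f(x)` of the projective line over `k(t)` whose branch points are distinct outside `m` and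
rational (or of degrees which are powers of three), and for ALL Galois extensions `L` of `k(t)` of
degree a power of three in which no ramified place splits in `L(√D)`: the `L`-function over `L` of the
quadratic twist of the first cohomology of the curve by `k(t)(√D)` does not vanish at any integer, in
particular not at `s = 1`.
-/

set_option autoImplicit false

open Polynomial Pool.Agent.Y711

namespace Pool.Agent.Results.MP_72e2e6_nt.TwistedCyclicCovers

theorem result (k : Type) [Field k] [Finite k] (h2 : (2 : k) ≠ 0) (h3 : (3 : k) ≠ 0)
    (m n a : k[X]) (hm : m.Monic) (hn : n.Monic) (hs : Squarefree (m * n)) (ha : IsCoprime n a)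
    (δ : ℝ) (hδ : δ < 1 / 2) :
    ∃ N : ℕ, ∀ g ≥ N, δ * (twistClass g m n a).ncard ≤
      {D : k[X] | D ∈ twistClass g m n a ∧ ∀ (e r : ℕ) (f : k[X][X]), IsBranch r f m →
        ∀ (L : Type) [Field L] [Algebra k[X] L] [Algebra (RatFunc k) L]
          [IsScalarTower k[X] (RatFunc k) L], IsThreeExtension D L →
            ∀ j : ℕ, ¬ ZeroAt k j (coverL (3 ^ e) f D (integralClosure k[X] L))}.ncard :=
  cover_half h2 h3 hm hn hs ha hδ

end Pool.Agent.Results.MP_72e2e6_nt.TwistedCyclicCovers
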